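import Pool.Agent.EDG.StmtsC

/-!
# Squad EDG, row HSU
-/

set_option autoImplicit false

open Polynomial

namespace Pool.Agent.EDG.H32

theorem itc_step (a b : ℕ) : ∀ k : ℕ, C.itc ℂ (a + k) - C.itc ℂ (b + k) =
    (C.itc ℂ a - C.itc ℂ b) * ∏ j ∈ Finset.range k, (C.itc ℂ (a + j) + C.itc ℂ (b + j))
  | 0 => by simp
  | k + 1 => by
      have h := itc_step a b k
      rw [Finset.prod_range_succ, ← mul_assoc, ← h, ← add_assoc, ← add_assoc]
      simp only [C.itc]
      ring

theorem itc_tele (k : ℕ) : ∀ i : ℕ, C.itc ℂ (k * (i + 1)) - C.itc ℂ (k * i) =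
    C.phi k * ∏ l ∈ Finset.range i, ∏ j ∈ Finset.range k,
      (C.itc ℂ (k * (l + 1) + j) + C.itc ℂ (k * l + j))
  | 0 => by simp [C.phi, C.itc]
  | i + 1 => by
      have h := itc_tele k i
      rw [Finset.prod_range_succ, ← mul_assoc, ← h]
      have h2 := itc_step (k * (i + 1)) (k * i) k
      rw [← h2]
      congr 1

theorem hsu : C.HsuStmt := by
  intro k N
  rw [C.hsum, Finset.mul_sum, C.phi]
  have h := Finset.sum_range_sub (fun i => C.itc ℂ (k * i)) N
  simp only [Nat.mul_zero] at h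
  rw [show C.itc ℂ 0 = X from rfl] at h
  rw [← h]
  refine Finset.sum_congr rfl fun i _ => ?_
  exact itc_tele k i

end Pool.Agent.EDG.H32
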