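import Pool.Agent.EDG.StmtsC

/-!
# Squad EDG, row PRE
-/

set_option autoImplicit false

namespace Pool.Agent.EDG.H32

open Finset

/-- Cauchy-Schwarz for the number of pairs with equal images. -/
theorem card_sq_le {α β : Type} [Fintype β] [DecidableEq α] [DecidableEq β] (f : α → β)
    (A : Finset α) :
    A.card ^ 2 ≤ Fintype.card β * ((A ×ˢ A).filter fun p => f p.1 = f p.2).card := by
  have h1 : A.card = ∑ w : β, (A.filter fun u => f u = w).card :=
    Finset.card_eq_sum_card_fiberwise (f := f) (t := univ) (fun _ _ => mem_coe.2 (mem_univ _))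
  have h2 : ((A ×ˢ A).filter fun p => f p.1 = f p.2).card =
      ∑ w : β, (A.filter fun u => f u = w).card ^ 2 := by
    rw [Finset.card_eq_sum_card_fiberwise (f := fun p : α × α => f p.1) (t := univ)
      (fun _ _ => mem_coe.2 (mem_univ _))]
    refine Finset.sum_congr rfl fun w _ => ?_
    rw [sq, ← Finset.card_product]
    congr 1
    ext ⟨u, v⟩
    simp only [mem_filter, mem_product]
    constructor
    · rintro ⟨⟨⟨h3, h4⟩, h5⟩, h6⟩
      exact ⟨⟨h3, h6⟩, ⟨h4, h5 ▸ h6⟩⟩
    · rintro ⟨⟨h3, h4⟩, ⟨h5, h6⟩⟩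
      exact ⟨⟨⟨h3, h5⟩, h4.trans h6.symm⟩, h4⟩
  rw [h2, h1]
  have h3 := sq_sum_le_card_mul_sum_sq (s := (univ : Finset β))
    (f := fun w => (A.filter fun u => f u = w).card)
  rw [Finset.card_univ] at h3
  exact h3

open Classical in
theorem agree_bound {n : ℕ} (A : Finset (Fin n → Bool)) (i : Fin n) :
    (A.card : ℝ) ^ 2 / 2 ^ ((i : ℕ) + 1) - A.card ≤
      ((A.offDiag.filter fun p => ∀ j, j ≤ i → p.1 j = p.2 j).card : ℝ) := by
  let r : (Fin n → Bool) → (Fin ((i : ℕ) + 1) → Bool) := fun u j => u ⟨j, by omega⟩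
  have h1 := card_sq_le r A
  have hr : ∀ u v : Fin n → Bool, r u = r v ↔ ∀ j, j ≤ i → u j = v j := by
    intro u v
    constructor
    · intro h j hj
      have := congrFun h ⟨j, Nat.lt_succ_of_le hj⟩
      exact this
    · intro h
      funext j
      exact h _ (Nat.lt_succ_iff.1 j.2)
  have h2 : ((A ×ˢ A).filter fun p => r p.1 = r p.2).card ≤
      A.card + (A.offDiag.filter fun p => ∀ j, j ≤ i → p.1 j = p.2 j).card := by
    have hsub : ((A ×ˢ A).filter fun p => r p.1 = r p.2) ⊆
        A.image (fun u => (u, u)) ∪ (A.offDiag.filter fun p => ∀ j, j ≤ i → p.1 j = p.2 j) := by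
      rintro ⟨u, v⟩ hp
      simp only [mem_filter, mem_product] at hp
      by_cases huv : u = v
      · exact mem_union_left _ (mem_image.2 ⟨u, hp.1.1, by rw [huv]⟩)
      · refine mem_union_right _ (mem_filter.2 ⟨mem_offDiag.2 ⟨hp.1.1, hp.1.2, huv⟩, ?_⟩)
        exact (hr u v).1 hp.2
    refine (card_le_card hsub).trans ((card_union_le _ _).trans ?_)
    exact Nat.add_le_add_right card_image_le _
  have hc : Fintype.card (Fin ((i : ℕ) + 1) → Bool) = 2 ^ ((i : ℕ) + 1) := by
    rw [Fintype.card_fun, Fintype.card_bool, Fintype.card_fin]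
  rw [hc] at h1
  have h3 : (A.card : ℝ) ^ 2 ≤ 2 ^ ((i : ℕ) + 1) *
      (A.card + (A.offDiag.filter fun p => ∀ j, j ≤ i → p.1 j = p.2 j).card) := by
    have h4 := h1.trans (Nat.mul_le_mul_left _ h2)
    exact_mod_cast h4
  rw [sub_le_iff_le_add, div_le_iff₀ (by positivity)]
  linarith

theorem pre : C.PreStmt := by
  classical
  intro n m A hA
  -- the sum of the lcp
  have hS : (∑ p ∈ A.offDiag, (C.lcp p.1 p.2 : ℝ)) =
      ∑ i : Fin n, ((A.offDiag.filter fun p => ∀ j, j ≤ i → p.1 j = p.2 j).card : ℝ) := by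
    have h1 : ∀ p : (Fin n → Bool) × (Fin n → Bool), (C.lcp p.1 p.2 : ℝ) =
        ∑ i : Fin n, if (∀ j, j ≤ i → p.1 j = p.2 j) then (1 : ℝ) else 0 := by
      intro p
      rw [C.lcp, Finset.card_filter]
      push_cast
      rfl
    simp_rw [h1]
    rw [Finset.sum_comm]
    refine Finset.sum_congr rfl fun i _ => ?_
    rw [Finset.card_filter]
    push_cast
    rfl
  set a : ℝ := (A.card : ℝ) with ha
  set M := min m n with hM
  -- lower bound
  have hlow : ∀ M' : ℕ, M' ≤ n → a ^ 2 * (1 - 1 / 2 ^ M') - M' * a ≤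
      ∑ i ∈ univ.filter (fun i : Fin n => (i : ℕ) < M'),
        ((A.offDiag.filter fun p => ∀ j, j ≤ i → p.1 j = p.2 j).card : ℝ) := by
    intro M'
    induction M' with
    | zero => intro _; simp
    | succ M' ih =>
      intro hM'
      have ih' := ih (by omega)
      have hsplit : univ.filter (fun i : Fin n => (i : ℕ) < M' + 1) =
          insert (⟨M', by omega⟩ : Fin n) (univ.filter (fun i : Fin n => (i : ℕ) < M')) := by
        ext i
        simp only [mem_filter, mem_univ, true_and, mem_insert, Fin.ext_iff]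
        omega
      rw [hsplit, Finset.sum_insert (by simp)]
      have h2 := agree_bound A (⟨M', by omega⟩ : Fin n)
      simp only at h2
      rw [← ha] at h2
      have h3 : a ^ 2 * (1 - 1 / 2 ^ (M' + 1)) - ((M' + 1 : ℕ) : ℝ) * a =
          (a ^ 2 / 2 ^ (M' + 1) - a) + (a ^ 2 * (1 - 1 / 2 ^ M') - M' * a) := by
        push_cast
        rw [pow_succ]
        field_simp
        ring
      rw [h3]
      exact add_le_add h2 ih'
  have hMn : M ≤ n := min_le_right _ _
  have hMm : M ≤ m := min_le_left _ _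
  have h4 : a ^ 2 * (1 - 1 / 2 ^ M) - M * a ≤ ∑ p ∈ A.offDiag, (C.lcp p.1 p.2 : ℝ) := by
    rw [hS]
    refine (hlow M hMn).trans ?_
    exact Finset.sum_le_sum_of_subset_of_nonneg (Finset.filter_subset _ _)
      (fun i _ _ => Nat.cast_nonneg _)
  -- the number of elements
  have haM : a ≤ 2 ^ M := by
    have h5 : A.card ≤ 2 ^ n := by
      have := Finset.card_le_univ A
      rwa [Fintype.card_fun, Fintype.card_bool, Fintype.card_fin] at this
    have h6 : A.card ≤ 2 ^ M := by
      rcases min_choice m n with h | h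
      · rw [hM, h]; exact hA
      · rw [hM, h]; exact h5
    rw [ha]
    exact_mod_cast h6
  have ha0 : 0 ≤ a := Nat.cast_nonneg _
  have h7 : a ^ 2 / 2 ^ M ≤ a := by
    rw [div_le_iff₀ (by positivity), sq]
    exact mul_le_mul_of_nonneg_left haM ha0
  have hoff : (A.offDiag.card : ℝ) = a ^ 2 - a := by
    rw [Finset.offDiag_card]
    rw [Nat.cast_sub (Nat.le_mul_self _)]
    push_cast
    rw [sq]
  have h8 : ((∑ p ∈ A.offDiag, (1 - (C.lcp p.1 p.2 : ℤ)) : ℤ) : ℝ) ≤ ((m : ℤ) * A.card : ℤ) := by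
    push_cast
    rw [Finset.sum_sub_distrib, Finset.sum_const, nsmul_eq_mul, mul_one, hoff]
    have h9 : (M : ℝ) * a ≤ m * a :=
      mul_le_mul_of_nonneg_right (by exact_mod_cast hMm) ha0
    have h10 : a ^ 2 * (1 - 1 / 2 ^ M) = a ^ 2 - a ^ 2 / 2 ^ M := by
      rw [mul_sub, mul_one, mul_one_div]
    rw [h10] at h4
    linarith
  exact_mod_cast h8

end Pool.Agent.EDG.H32
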