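import Pool.Agent.EDG.Stmts

/-!
# Squad EDG, row EXN
-/

set_option autoImplicit false

namespace Pool.Agent.EDG.H32

open Polynomial Finset

/-- The derivative of an iterate vanishes if the orbit meets the critical point. -/
theorem ev_derivative_Fit (b : ℂ) : ∀ (k : ℕ) (y : ℂ), (∃ j < k, it b y j = -b) →
    ev b y (derivative (Fit k)) = 0
  | 0, _, h => by
      obtain ⟨j, hj, _⟩ := h
      omega
  | k + 1, y, h => by
      have h1 : ev b y (derivative (Fit (k + 1))) =
          (2 * y + 2 * b) * ev b (y ^ 2 + 2 * b * y) (derivative (Fit k)) := by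
        rw [Fit, derivative_comp, map_mul, ev_comp_F]
        congr 1
        simp only [F, derivative_pow, derivative_X, derivative_mul,
          derivative_C, map_add, map_mul, ev_X, ev_C, map_pow, map_one, map_zero, aeval_X,
          map_ofNat]
        simp [map_ofNat]
      rw [h1]
      obtain ⟨j, hj, hj2⟩ := h
      cases j with
      | zero =>
        rw [it_zero] at hj2
        rw [hj2]
        ring
      | succ j =>
        rw [it_succ'] at hj2
        rw [ev_derivative_Fit b k _ ⟨j, by omega, hj2⟩, mul_zero]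

theorem sub_dvd_comp_sub (A B : ℤ[X][X]) (P : ℤ[X][X]) : A - B ∣ P.comp A - P.comp B := by
  induction P using Polynomial.induction_on' with
  | add p q hp hq =>
    rw [add_comp, add_comp]
    have h : p.comp A + q.comp A - (p.comp B + q.comp B) =
        (p.comp A - p.comp B) + (q.comp A - q.comp B) := by ring
    rw [h]
    exact dvd_add hp hq
  | monomial n a =>
    rw [monomial_comp, monomial_comp, ← mul_sub]
    exact Dvd.dvd.mul_left (sub_dvd_pow_sub_pow A B n) _

theorem Fit_add (k : ℕ) : ∀ n : ℕ, Fit (k + n) = (Fit k).comp (Fit n)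
  | 0 => by simp [Fit]
  | n + 1 => by
      rw [← add_assoc, Fit, Fit_add k n, Fit, comp_assoc]

theorem Fit_dvd (n : ℕ) : ∀ q : ℕ, Fit n - X ∣ Fit (n * q) - X
  | 0 => by simp [Fit]
  | q + 1 => by
      have h1 := sub_dvd_comp_sub (Fit n) X (Fit (n * q))
      rw [comp_X, ← Fit_add] at h1
      have h2 : Fit (n * (q + 1)) - X = (Fit (n * q + n) - Fit (n * q)) + (Fit (n * q) - X) := by
        rw [Nat.mul_succ]
        ring
      rw [h2]
      exact dvd_add h1 (Fit_dvd n q)

theorem dvd_of_aeval {g : ℤ[X]} (hm : g.Monic) (hi : Irreducible g) {b : ℂ}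
    (hb : aeval b g = 0) {P : ℤ[X]} (hP : aeval b P = 0) : g ∣ P := by
  have hint : IsIntegral ℤ b := ⟨g, hm, hb⟩
  have h1 : minpoly ℤ b ∣ g := minpoly.isIntegrallyClosed_dvd hint hb
  have h2 : minpoly ℤ b ∣ P := minpoly.isIntegrallyClosed_dvd hint hP
  have h3 : Associated (minpoly ℤ b) g :=
    (hi.dvd_iff.1 h1).resolve_left (minpoly.not_isUnit ℤ b) |>.symm
  exact h3.symm.dvd.trans h2

theorem exn : ExnStmt := by
  intro n g hc Ψ i p hΨ hgi hp hΨp
  obtain ⟨b, hb⟩ : ∃ b : ℂ, aeval b g = 0 := by
    refine IsAlgClosed.exists_aeval_eq_zero ℂ g ?_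
    have h := hc.natDegree_pos
    intro h0
    rw [degree_eq_natDegree hc.monic.ne_zero] at h0
    have : g.natDegree = 0 := by exact_mod_cast h0
    omega
  have hdvd : ∀ P : ℤ[X], aeval b P = 0 → g ∣ P := fun P hP => dvd_of_aeval hc.monic hc.irr hb hP
  have hvan : ∀ P : ℤ[X], g ∣ P → aeval b P = 0 := by
    rintro P ⟨Q, rfl⟩
    rw [map_mul, hb, zero_mul]
  -- the orbit
  set y : ℕ → ℂ := fun j => it b (-b) j with hy
  have hyadd : ∀ j k, it b (y j) k = y (j + k) := by
    intro j k
    rw [hy]
    simp only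
    rw [it_add]
  have hyn : y n = y 0 := by
    have h := hvan _ hc.per
    rw [map_sub, aeval_Yp, aeval_Yp, sub_eq_zero] at h
    exact h
  have hper : ∀ k, y (k + n) = y k := by
    intro k
    rw [add_comm, ← hyadd, hyn, hyadd, zero_add]
  have hperq : ∀ q k, y (k + n * q) = y k := by
    intro q
    induction q with
    | zero => intro k; simp
    | succ q ih =>
      intro k
      rw [Nat.mul_succ, ← add_assoc, hper, ih]
  have hmin : ∀ k, y k = y 0 → n ∣ k := by
    intro k hk
    have h1 : y (k % n) = y 0 := by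
      rw [← hk]
      conv_rhs => rw [← Nat.mod_add_div k n]
      exact (hperq _ _).symm
    rcases Nat.eq_zero_or_pos (k % n) with h2 | h2
    · exact Nat.dvd_of_mod_eq_zero h2
    · exfalso
      refine hc.ex (k % n) h2 (Nat.mod_lt _ hc.npos) (hdvd _ ?_)
      rw [map_sub, aeval_Yp, aeval_Yp, sub_eq_zero]
      exact h1
  have hmin2 : ∀ k, y (i + k) = y i → n ∣ k := by
    intro k hk
    apply hmin
    have h1 : i ≤ n * i := Nat.le_mul_of_pos_left i hc.npos
    have h2 : y (i + k + (n * i - i)) = y (i + (n * i - i)) := by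
      rw [← hyadd, hk, hyadd]
    have h3 : i + k + (n * i - i) = k + n * i := by omega
    have h4 : i + (n * i - i) = 0 + n * i := by omega
    rw [h3, h4, hperq, hperq] at h2
    exact h2
  have hΨ0 : ev b (y i) Ψ = 0 := by
    have h := hvan _ hgi
    rw [aeval_ev, aeval_Yp] at h
    exact h
  have hroot : ∀ P : ℤ[X][X], Ψ ∣ P → ev b (y i) P = 0 := by
    rintro P ⟨Q, rfl⟩
    rw [map_mul, hΨ0, zero_mul]
  have hk : ∀ k, Ψ ∣ Fit k - X → n ∣ k := by
    intro k h
    have h1 := hroot _ h
    rw [map_sub, ev_Fit, ev_X, sub_eq_zero, hyadd] at h1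
    exact hmin2 k h1
  refine ⟨?_, fun k hk0 hkn h => ?_⟩
  · by_contra hn
    obtain ⟨q, rfl⟩ := hk p hΨp
    obtain ⟨W, hW⟩ := Fit_dvd n q
    have hprime : Prime Ψ := hΨ.prime
    have hΨW : Ψ ∣ W := by
      rw [hW] at hΨp
      exact (hprime.dvd_or_dvd hΨp).resolve_left hn
    have h1 : ev b (y i) (Fit n - X) = 0 := by
      rw [map_sub, ev_Fit, ev_X, hyadd, hper, sub_self]
    have h2 : ev b (y i) W = 0 := hroot _ hΨW
    have h3 := congrArg derivative hW
    have h4 := congrArg (ev b (y i)) h3
    rw [derivative_mul, map_add, map_mul, map_mul, h1, h2, mul_zero, zero_mul, add_zero,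
      derivative_sub, derivative_X, map_sub, map_one] at h4
    have h5 : ev b (y i) (derivative (Fit (n * q))) = 0 := by
      refine ev_derivative_Fit b _ _ ⟨n - 1 - (i + n - 1) % n, ?_, ?_⟩
      · have hq : 0 < q := by
          rcases Nat.eq_zero_or_pos q with h | h
          · subst h; simp at hp
          · exact h
        have h6 : n * 1 ≤ n * q := Nat.mul_le_mul_left n hq
        have := hc.npos
        omega
      · rw [hyadd]
        have h7 : i + (n - 1 - (i + n - 1) % n) = 0 + n * ((i + n - 1) / n) := by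
          have h8 := Nat.mod_add_div (i + n - 1) n
          have h9 := Nat.mod_lt (i + n - 1) hc.npos
          have := hc.npos
          omega
        rw [h7, hperq]
        rfl
    rw [h5] at h4
    norm_num at h4
  · have h1 := Nat.le_of_dvd hk0 (hk k h)
    omega

end Pool.Agent.EDG.H32
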